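import Pool.Agent.helper93.VQ.Spec4c

/-!
# Row vq:RVA (MP_07c750_an): the averages are almost constant on a piece
-/

set_option autoImplicit false

open scoped MatrixGroups ContDiff Topology UpperHalfPlane ComplexConjugate ENNReal
open UpperHalfPlane MeasureTheory Filter Set

namespace Pool.Agent.VQ

open Pool.Agent.RS
open Pool.Agent.RPQ (mean)
open Pool.Agent.VQE (nm)

noncomputable section

theorem RVA_sl (g : SL(2, ℝ)) (w : ℂ) (hw : 0 < w.im) : ((g.1 1 0 : ℝ) : ℂ) * w + ((g.1 1 1 : ℝ) : ℂ) ≠ 0 := by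
  intro h
  have h1 := congrArg Complex.im h
  rw [Complex.add_im, Complex.im_ofReal_mul, Complex.ofReal_im, Complex.zero_im, add_zero] at h1
  have h2 : g.1 1 0 = 0 := (mul_eq_zero.1 h1).resolve_right hw.ne'
  rw [h2, Complex.ofReal_zero, zero_mul, zero_add] at h
  have h3 : g.1 1 1 = 0 := by exact_mod_cast h
  have h4 := g.2
  rw [Matrix.det_fin_two, h2, h3] at h4
  simp at h4

theorem RVA_coe (g : SL(2, ℝ)) (z : ℍ) : ((g • z : ℍ) : ℂ) =
    (((g.1 0 0 : ℝ) : ℂ) * z + ((g.1 0 1 : ℝ) : ℂ)) / (((g.1 1 0 : ℝ) : ℂ) * z + ((g.1 1 1 : ℝ) : ℂ)) :=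
  coe_specialLinearGroup_apply g z

theorem RVA_sq_le_cosh (x : ℝ) : x ^ 2 ≤ 2 * (Real.cosh x - 1) := by
  have h1 : Real.cosh x = 1 + 2 * Real.sinh (x / 2) ^ 2 := by
    have h := Real.cosh_two_mul (x / 2)
    have h2 := Real.cosh_sq (x / 2)
    rw [show 2 * (x / 2) = x by ring] at h
    rw [h, h2]
    ring
  have h3 : (x / 2) ^ 2 ≤ Real.sinh (x / 2) ^ 2 := by
    rcases le_total 0 (x / 2) with h | h
    · have := Real.self_le_sinh_iff.2 h
      nlinarith
    · have := Real.sinh_le_self_iff.2 h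
      nlinarith
  rw [h1]
  nlinarith

theorem RVA_cosh (y : SL(2, ℝ)) : Real.cosh (dist (y • I : ℍ) I) =
    1 + ((y.1 0 1 + y.1 1 0) ^ 2 + (y.1 0 0 - y.1 1 1) ^ 2) / 2 := by
  have hd : y.1 0 0 * y.1 1 1 - y.1 0 1 * y.1 1 0 = 1 := by
    have := y.2
    rwa [Matrix.det_fin_two] at this
  have hz := RVA_coe y I
  rw [UpperHalfPlane.coe_I] at hz
  have hne := RVA_sl y Complex.I (by simp)
  set a := y.1 0 0 with ha
  set b := y.1 0 1 with hb
  set c := y.1 1 0 with hc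
  set d := y.1 1 1 with hd'
  have hN : 0 < c ^ 2 + d ^ 2 := by
    by_contra h
    have h1 : c = 0 := by nlinarith [sq_nonneg c, sq_nonneg d]
    have h2 : d = 0 := by nlinarith [sq_nonneg c, sq_nonneg d]
    rw [h1, h2] at hd
    simp at hd
  have hNS : Complex.normSq ((c : ℂ) * Complex.I + (d : ℂ)) = c ^ 2 + d ^ 2 := by
    rw [Complex.normSq_apply]
    simp
    ring
  have him : (y • I : ℍ).im = 1 / (c ^ 2 + d ^ 2) := by
    rw [← UpperHalfPlane.coe_im, hz, Complex.div_im, hNS]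
    simp
    field_simp
    nlinarith
  have hdist : dist ((y • I : ℍ) : ℂ) Complex.I ^ 2 = ((b + c) ^ 2 + (a - d) ^ 2) / (c ^ 2 + d ^ 2) := by
    have h1 : ((a : ℂ) * Complex.I + b) / ((c : ℂ) * Complex.I + d) - Complex.I =
        (((b + c : ℝ) : ℂ) + ((a - d : ℝ) : ℂ) * Complex.I) / ((c : ℂ) * Complex.I + d) := by
      rw [div_sub' hne, div_left_inj' hne]
      push_cast
      linear_combination (-(c : ℂ)) * Complex.I_sq
    rw [dist_eq_norm, hz, h1, norm_div, div_pow, ← Complex.normSq_eq_norm_sq, ← Complex.normSq_eq_norm_sq, hNS, Complex.normSq_add_mul_I]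
  rw [UpperHalfPlane.cosh_dist, UpperHalfPlane.coe_I, hdist, him, UpperHalfPlane.I_im]
  field_simp

theorem RVA_dist (y : SL(2, ℝ)) : dist (y • I : ℍ) I ≤ 4 * nm y := by
  have h1 := RVA_sq_le_cosh (dist (y • I : ℍ) I)
  rw [RVA_cosh] at h1
  have h2 : dist (y • I : ℍ) I ^ 2 ≤ (|y.1 0 1 + y.1 1 0| + |y.1 0 0 - y.1 1 1|) ^ 2 := by
    have h3 := sq_abs (y.1 0 1 + y.1 1 0)
    have h4 := sq_abs (y.1 0 0 - y.1 1 1)
    nlinarith [mul_nonneg (abs_nonneg (y.1 0 1 + y.1 1 0)) (abs_nonneg (y.1 0 0 - y.1 1 1))]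
  have h5 := (pow_le_pow_iff_left₀ dist_nonneg (by positivity) two_ne_zero).1 h2
  have e1 : |y.1 0 1| ≤ nm y := (le_max_right _ _).trans (le_max_left _ _)
  have e2 : |y.1 1 0| ≤ nm y := (le_max_left _ _).trans (le_max_right _ _)
  have e3 : |y.1 0 0 - 1| ≤ nm y := (le_max_left _ _).trans (le_max_left _ _)
  have e4 : |y.1 1 1 - 1| ≤ nm y := (le_max_right _ _).trans (le_max_right _ _)
  have e5 : |y.1 0 1 + y.1 1 0| ≤ |y.1 0 1| + |y.1 1 0| := abs_add_le _ _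
  have e6 : |y.1 0 0 - y.1 1 1| ≤ |y.1 0 0 - 1| + |y.1 1 1 - 1| := by
    have h6 : y.1 0 0 - y.1 1 1 = (y.1 0 0 - 1) - (y.1 1 1 - 1) := by ring
    rw [h6]
    exact abs_sub _ _
  linarith

/-- Row RVA. -/
theorem RVA_proof (hRGF : RGF_stmt) (hRDR : RDR_stmt) (hRJT : RJT_stmt) : RVA_stmt := by
  intro d D hFF hd hd' h Lh hLh hlip E T γ x b c ℓ x' b' c' ℓ' hE hT hR hR' u u' huu hΛ
  obtain ⟨X, Y, Z, L, h0, hV, hCC, hL0, hgr, hRG, -⟩ := hRGF d D hFF hd hd' E γ x b c ℓ hE hR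
  have hT0 : 0 < T := by linarith
  obtain ⟨-, -, -, hJ⟩ := hRJT.2.2.2.2 2 2 _ x' b' c' ℓ' (X T) (Y T) (Z T) (L T) hR' (hRG T hT)
  have hLΛ : L T u' - L T u = ℓ' u' - ℓ' u := (hJ u u').symm
  obtain ⟨Λ, hΛd⟩ : ∃ Λ : ℝ, Λ = ℓ' u' - ℓ' u := ⟨_, rfl⟩
  rw [← hΛd] at hΛ hLΛ ⊢
  have hcont : ∀ g : SL(2, ℝ), Continuous fun t : ℝ => h (D.fl E t g • I) := by
    intro g
    have h1 : Continuous h := by
      have h2 : LipschitzWith ⟨Lh, hLh⟩ h := LipschitzWith.of_dist_le_mul fun z w => by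
        rw [Real.dist_eq]
        exact hlip z w
      exact h2.continuous
    have h2 : Continuous fun t : ℝ => D.fl E t g := by
      have h3 := hFF.cont.comp_continuous (f := fun t : ℝ => ((E, t, g) : ℝ × ℝ × SL(2, ℝ))) (by fun_prop) (fun t => hE)
      exact h3
    exact h1.comp (h2.smul continuous_const)
  have hpt : ∀ t ∈ Icc (0 : ℝ) T, |h (D.fl E t (γ u) • I) - h (D.fl E t (γ u') • I)| ≤
      Lh * (22 / 5) * Λ * Real.exp (-(99 / 100 * (T - t))) := by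
    intro t ht
    have h3 := (hgr t T u u' ht.1 ht.2 huu).1
    rw [hLΛ] at h3
    have h5 : 1 ≤ Real.exp (99 / 100 * (T - t)) := Real.one_le_exp (by linarith [ht.2])
    have h4 : 0 ≤ L t u' - L t u := by
      have hm : Monotone (L t) := monotone_of_hasDerivAt_nonneg (fun v => (hCC t ht.1).dl v) (fun v => ((hCC t ht.1).pos v).le)
      linarith [hm huu]
    have h6 : L t u' - L t u ≤ 1 / 20 := by nlinarith
    have h7 := (hRDR (fun v => D.fl E t (γ v)) (X t) (Y t) (Z t) (L t) (hCC t ht.1) u u' huu h6).1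
    have h8 : L t u' - L t u ≤ Λ * Real.exp (-(99 / 100 * (T - t))) := by
      rw [Real.exp_neg, ← div_eq_mul_inv, le_div_iff₀ (Real.exp_pos _)]
      linarith
    have h9 : dist (D.fl E t (γ u) • I : ℍ) (D.fl E t (γ u') • I) ≤ 4 * nm ((D.fl E t (γ u))⁻¹ * D.fl E t (γ u')) := by
      have e1 : dist (D.fl E t (γ u) • I : ℍ) (D.fl E t (γ u') • I) = dist (((D.fl E t (γ u))⁻¹ * D.fl E t (γ u')) • I : ℍ) I := by
        rw [dist_comm, ← dist_smul (D.fl E t (γ u)) ((((D.fl E t (γ u))⁻¹ * D.fl E t (γ u')) • I : ℍ)) I, smul_smul, mul_inv_cancel_left]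
      rw [e1]
      exact RVA_dist _
    refine (hlip _ _).trans ?_
    have h10 : dist (D.fl E t (γ u) • I : ℍ) (D.fl E t (γ u') • I) ≤ 22 / 5 * (Λ * Real.exp (-(99 / 100 * (T - t)))) := by linarith
    calc Lh * dist (D.fl E t (γ u) • I : ℍ) (D.fl E t (γ u') • I) ≤ Lh * (22 / 5 * (Λ * Real.exp (-(99 / 100 * (T - t))))) :=
          mul_le_mul_of_nonneg_left h10 hLh
      _ = _ := by ring
  have hΛ0 : 0 ≤ Λ := by
    have hm : Monotone ℓ' := monotone_of_hasDerivAt_nonneg (fun v => hR'.dl v) (fun v => (hR'.pos v).le)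
    linarith [hm huu]
  have hint : ∫ t in (0 : ℝ)..T, Real.exp (-(99 / 100 * (T - t))) ≤ 100 / 99 := by
    have h1 : ∀ t ∈ uIcc (0 : ℝ) T, HasDerivAt (fun t => 100 / 99 * Real.exp (-(99 / 100 * (T - t)))) (Real.exp (-(99 / 100 * (T - t)))) t := by
      intro t _
      have h2 : HasDerivAt (fun t : ℝ => -(99 / 100 * (T - t))) (99 / 100) t := by
        have h3 := (((hasDerivAt_id t).const_sub T).const_mul (99 / 100)).neg
        have h4 : -(99 / 100 * -1) = (99 / 100 : ℝ) := by norm_num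
        rw [h4] at h3
        exact h3
      have h3 := h2.exp.const_mul (100 / 99)
      have h4 : 100 / 99 * (Real.exp (-(99 / 100 * (T - t))) * (99 / 100)) = Real.exp (-(99 / 100 * (T - t))) := by ring
      rw [h4] at h3
      exact h3
    rw [intervalIntegral.integral_eq_sub_of_hasDerivAt h1 (Continuous.intervalIntegrable (by fun_prop) _ _)]
    have h2 := Real.exp_pos (-(99 / 100 * (T - 0)))
    rw [sub_self, mul_zero, neg_zero, Real.exp_zero]
    linarith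
  have hmain : |(∫ t in (0 : ℝ)..T, h (D.fl E t (γ u) • I)) - ∫ t in (0 : ℝ)..T, h (D.fl E t (γ u') • I)| ≤ 10 * Lh * Λ := by
    rw [← intervalIntegral.integral_sub ((hcont _).intervalIntegrable _ _) ((hcont _).intervalIntegrable _ _)]
    refine (intervalIntegral.abs_integral_le_integral_abs hT0.le).trans ?_
    have h1 : ∫ t in (0 : ℝ)..T, |h (D.fl E t (γ u) • I) - h (D.fl E t (γ u') • I)| ≤
        ∫ t in (0 : ℝ)..T, Lh * (22 / 5) * Λ * Real.exp (-(99 / 100 * (T - t))) :=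
      intervalIntegral.integral_mono_on hT0.le (((hcont _).sub (hcont _)).abs.intervalIntegrable _ _)
        (Continuous.intervalIntegrable (by fun_prop) _ _) hpt
    refine h1.trans ?_
    rw [intervalIntegral.integral_const_mul]
    have h2 : 0 ≤ Lh * (22 / 5) * Λ := by positivity
    have h3 := mul_le_mul_of_nonneg_left hint h2
    have h4 : 0 ≤ Lh * Λ := by positivity
    nlinarith
  show |T⁻¹ * (∫ s in (0 : ℝ)..T, h (D.fl E s (γ u) • I)) - T⁻¹ * ∫ s in (0 : ℝ)..T, h (D.fl E s (γ u') • I)| ≤ 10 * Lh * Λ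
  rw [← mul_sub, abs_mul, abs_of_pos (inv_pos.2 hT0)]
  have h1 : T⁻¹ ≤ 1 := inv_le_one_of_one_le₀ hT
  calc T⁻¹ * _ ≤ 1 * |(∫ t in (0 : ℝ)..T, h (D.fl E t (γ u) • I)) - ∫ t in (0 : ℝ)..T, h (D.fl E t (γ u') • I)| :=
        mul_le_mul_of_nonneg_right h1 (abs_nonneg _)
    _ ≤ _ := by rw [one_mul]; exact hmain

end

end Pool.Agent.VQ
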