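import Pool.Agent.helper93.VQ.Spec4c

/-!
# Row vq:RGF (MP_07c750_an): the class of regular curves is preserved by the flow
-/

set_option autoImplicit false

open scoped MatrixGroups ContDiff Topology UpperHalfPlane ComplexConjugate ENNReal
open UpperHalfPlane MeasureTheory Filter Set

namespace Pool.Agent.VQ

open Pool.Agent.RS
open Pool.Agent.RPQ (mean)
open Pool.Agent.VQE (nm)

noncomputable section

theorem RGF_e1 {t : ℝ} (ht : 1 ≤ t) : 199 / 100 ≤ Real.exp (99 / 100 * (t - 0)) := by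
  have h1 := Real.add_one_le_exp (99 / 100 * (t - 0))
  linarith

theorem RGF_e2 {t : ℝ} (ht : 2 ≤ t) : 49 / 10 ≤ Real.exp (99 / 100 * (t - 0)) := by
  have h1 := Real.quadratic_le_exp_of_nonneg (by norm_num : (0 : ℝ) ≤ 198 / 100)
  have h2 : Real.exp (198 / 100) ≤ Real.exp (99 / 100 * (t - 0)) := Real.exp_le_exp.2 (by linarith)
  norm_num at h1
  linarith

theorem RGF_e3 {t : ℝ} (ht : 2 ≤ t) : Real.exp (-(9 / 5 * t)) ≤ 1 / 27 := by
  have h1 := Real.quadratic_le_exp_of_nonneg (by norm_num : (0 : ℝ) ≤ 9 / 10)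
  have h2 : Real.exp (9 / 5 * t) ≥ 27 := by
    have h3 : Real.exp (18 / 5) ≤ Real.exp (9 / 5 * t) := Real.exp_le_exp.2 (by linarith)
    have h4 : Real.exp (18 / 5) = Real.exp (9 / 10) ^ 4 := by
      rw [← Real.exp_nat_mul]
      norm_num
    have h5 : (23 / 10 : ℝ) ≤ Real.exp (9 / 10) := by
      norm_num at h1
      linarith
    have h6 : (23 / 10 : ℝ) ^ 4 ≤ Real.exp (9 / 10) ^ 4 := pow_le_pow_left₀ (by norm_num) h5 4
    norm_num at h6
    linarith
  rw [Real.exp_neg, inv_le_comm₀ (Real.exp_pos _) (by norm_num)]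
  linarith

/-- Row RGF. -/
theorem RGF_proof (hRSL : RSL_stmt) (hRTW : RTW_stmt) (hRDR : RDR_stmt) : RGF_stmt := by
  intro d D hFF hd hd' E γ x b c ℓ hE hR
  obtain ⟨X, Y, Z, h0, hV, hC⟩ := hFF.vs E γ x b c hE hR.toCC.toCv
  have hpos0 : ∀ v, 0 < Z 0 v := fun v => by
    rw [(h0 v).2.2]
    exact hR.pos v
  have hcone0 : ∀ v, X 0 v ^ 2 + Y 0 v ^ 2 ≤ (1 / 50) ^ 2 * Z 0 v ^ 2 := fun v => by
    have h1 := hR.cone v
    rw [(h0 v).1, (h0 v).2.1, (h0 v).2.2]
    norm_num at h1 ⊢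
    exact h1
  have hS := fun v => hRSL d D hFF hd hd' E (γ v) (fun t => X t v) (fun t => Y t v) (fun t => Z t v) hE (hV v) (hpos0 v) (hcone0 v)
  have hZpos : ∀ t, 0 ≤ t → ∀ v, 0 < Z t v := fun t ht v => (hS v t ht).1
  have hcone : ∀ t, 0 ≤ t → ∀ v, X t v ^ 2 + Y t v ^ 2 ≤ (1 / 50) ^ 2 * Z t v ^ 2 := by
    intro t ht v
    refine ((hS v t ht).2.2 ((1 / 50) ^ 2) le_rfl (hcone0 v)).trans ?_
    apply mul_le_mul_of_nonneg_right _ (sq_nonneg _)
    have h1 : Real.exp (-(9 / 5 * t)) ≤ 1 := Real.exp_le_one_iff.2 (by linarith)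
    have h2 : (10 * d) ^ 2 ≤ (1 / 50) ^ 2 := pow_le_pow_left₀ (by linarith) (by linarith) 2
    nlinarith
  obtain ⟨L, hL⟩ : ∃ L : ℝ → ℝ → ℝ, ∀ t v, L t v = ∫ u in (0 : ℝ)..v, Z t u := ⟨fun t v => ∫ u in (0 : ℝ)..v, Z t u, fun _ _ => rfl⟩
  have hLd : ∀ t v, HasDerivAt (L t) (Z t v) v := by
    intro t v
    have h1 : L t = fun v => ∫ u in (0 : ℝ)..v, Z t u := funext (hL t)
    rw [h1]
    exact intervalIntegral.integral_hasDerivAt_right ((hC t).cc.intervalIntegrable _ _) ((hC t).cc.stronglyMeasurableAtFilter _ _) (hC t).cc.continuousAt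
  have hLs : ∀ t v v', L t v' - L t v = ∫ u in v..v', Z t u := by
    intro t v v'
    rw [hL, hL, intervalIntegral.integral_interval_sub_left ((hC t).cc.intervalIntegrable _ _) ((hC t).cc.intervalIntegrable _ _)]
  have hCC : ∀ t, 0 ≤ t → CC 2 (fun v => D.fl E t (γ v)) (X t) (Y t) (Z t) (L t) := by
    intro t ht
    refine ⟨hC t, hZpos t ht, hLd t, fun v => ?_⟩
    have h1 := hcone t ht v
    norm_num at h1 ⊢
    exact h1
  have hL0 : ∀ v v', L 0 v' - L 0 v = ℓ v' - ℓ v := by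
    intro v v'
    rw [hLs]
    have h1 : (fun u => Z 0 u) = c := funext fun u => (h0 u).2.2
    have h2 : ∫ u in v..v', Z 0 u = ∫ u in v..v', c u := by
      rw [show (fun u => Z 0 u) = c from h1]
    rw [h2]
    exact intervalIntegral.integral_eq_sub_of_hasDerivAt (fun u _ => hR.dl u) (hR.cc.intervalIntegrable _ _)
  have hgr : ∀ s t v v' : ℝ, 0 ≤ s → s ≤ t → v ≤ v' → Real.exp (99 / 100 * (t - s)) * (L s v' - L s v) ≤ L t v' - L t v ∧
      L t v' - L t v ≤ Real.exp (101 / 100 * (t - s)) * (L s v' - L s v) := by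
    intro s t v v' hs hst hvv
    rw [hLs, hLs]
    constructor
    · rw [← intervalIntegral.integral_const_mul]
      refine intervalIntegral.integral_mono_on hvv ((((hC s).cc).const_mul _).intervalIntegrable _ _) ((hC t).cc.intervalIntegrable _ _) fun u _ => ?_
      exact ((hS u t (hs.trans hst)).2.1 s hs hst).1
    · rw [← intervalIntegral.integral_const_mul]
      refine intervalIntegral.integral_mono_on hvv ((hC t).cc.intervalIntegrable _ _) ((((hC s).cc).const_mul _).intervalIntegrable _ _) fun u _ => ?_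
      exact ((hS u t (hs.trans hst)).2.1 s hs hst).2
  have hLnn : ∀ t, 0 ≤ t → ∀ v v', v ≤ v' → 0 ≤ L t v' - L t v := by
    intro t ht v v' hvv
    rw [hLs]
    exact intervalIntegral.integral_nonneg hvv fun u _ => (hZpos t ht u).le
  -- the comparison of two orbits
  have hcore : ∀ t v v' : ℝ, 0 ≤ t → v ≤ v' → 2 * (ℓ v' - ℓ v) ≤ 1 / 50 → L t v' - L t v ≤ 1 / 25 →
      (X t v / Z t v - X t v' / Z t v') ^ 2 + (Y t v / Z t v - Y t v' / Z t v') ^ 2 ≤
        Real.exp (-(9 / 5 * t)) * (2 * (ℓ v' - ℓ v)) ^ 2 + (100 * d * (L t v' - L t v)) ^ 2 ∧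
      |Real.log (Z t v') - Real.log (Z t v)| ≤ 2 * (ℓ v' - ℓ v) + 20 * d * ((L t v' - L t v) + 2 * (ℓ v' - ℓ v)) := by
    intro t v v' ht hvv h1 h2
    have hΛ := hLnn t ht v v' hvv
    have hℓ : 0 ≤ ℓ v' - ℓ v := by
      rw [← hL0]
      exact hLnn 0 le_rfl v v' hvv
    obtain ⟨hr1, hr2⟩ := hRTW d D hFF hd hd' E t (L t v' - L t v) (2 * (ℓ v' - ℓ v)) (γ v) (γ v') (fun t => X t v) (fun t => Y t v) (fun t => Z t v)
      (fun t => X t v') (fun t => Y t v') (fun t => Z t v') hE ht hΛ (by linarith) (by linarith) (hV v) (hV v') (by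
        intro s hs hst
        refine ⟨hZpos s hs v, hZpos s hs v', ?_, ?_, ?_⟩
        · have h3 := hcone s hs v
          have h4 := sq_nonneg (Z s v)
          show X s v ^ 2 + Y s v ^ 2 ≤ (1 / 25) ^ 2 * Z s v ^ 2
          nlinarith
        · have h3 := hcone s hs v'
          have h4 := sq_nonneg (Z s v')
          show X s v' ^ 2 + Y s v' ^ 2 ≤ (1 / 25) ^ 2 * Z s v' ^ 2
          nlinarith
        · have h3 := (hgr s t v v' hs hst hvv).1
          have h4 := hLnn s hs v v' hvv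
          have h5 : 1 ≤ Real.exp (99 / 100 * (t - s)) := Real.one_le_exp (by nlinarith)
          have h6 : L s v' - L s v ≤ 1 / 20 := by nlinarith
          have h7 := (hRDR (fun v => D.fl E s (γ v)) (X s) (Y s) (Z s) (L s) (hCC s hs) v v' hvv h6).1
          have h8 : L s v' - L s v ≤ (L t v' - L t v) * Real.exp (-(99 / 100 * (t - s))) := by
            rw [Real.exp_neg, ← div_eq_mul_inv, le_div_iff₀ (Real.exp_pos _)]
            linarith
          have h9 : 0 ≤ (L t v' - L t v) * Real.exp (-(99 / 100 * (t - s))) := mul_nonneg hΛ (Real.exp_pos _).le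
          refine h7.trans ?_
          linarith) (by
        have h3 := hR.sl v v' hvv h1
        show (X 0 v / Z 0 v - X 0 v' / Z 0 v') ^ 2 + (Y 0 v / Z 0 v - Y 0 v' / Z 0 v') ^ 2 ≤ (2 * (ℓ v' - ℓ v)) ^ 2
        rw [(h0 v).1, (h0 v).2.1, (h0 v).2.2, (h0 v').1, (h0 v').2.1, (h0 v').2.2]
        exact h3)
    refine ⟨hr1, hr2.trans ?_⟩
    have h3 := hR.di v v' hvv h1
    show |Real.log (Z 0 v') - Real.log (Z 0 v)| + _ ≤ _
    rw [(h0 v).2.2, (h0 v').2.2]
    linarith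
  have h100 : ∀ Λ : ℝ, (100 * d * Λ) ^ 2 ≤ 1 / 10000 * Λ ^ 2 := by
    intro Λ
    have h1 : (100 * d) ^ 2 ≤ (1 / 100) ^ 2 := pow_le_pow_left₀ (by linarith) (by linarith) 2
    rw [mul_pow]
    refine (mul_le_mul_of_nonneg_right h1 (sq_nonneg Λ)).trans ?_
    norm_num
  refine ⟨X, Y, Z, L, h0, hV, hCC, hL0, hgr, fun t ht => ?_, fun t ht => ?_⟩
  · have ht0 : 0 ≤ t := by linarith
    have key : ∀ v v' : ℝ, v ≤ v' → 2 * (L t v' - L t v) ≤ 1 / 50 →
        (0 ≤ ℓ v' - ℓ v ∧ 199 / 100 * (ℓ v' - ℓ v) ≤ L t v' - L t v) := by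
      intro v v' hvv h1
      have h2 := (hgr 0 t v v' le_rfl ht0 hvv).1
      rw [hL0] at h2
      have h3 : 0 ≤ ℓ v' - ℓ v := by
        rw [← hL0]
        exact hLnn 0 le_rfl v v' hvv
      have h4 := RGF_e1 ht
      exact ⟨h3, (mul_le_mul_of_nonneg_right h4 h3).trans h2⟩
    refine ⟨hCC t ht0, fun v v' hvv h1 => ?_, fun v v' hvv h1 => ?_⟩
    · obtain ⟨h2, h3⟩ := key v v' hvv h1
      refine ((hcore t v v' ht0 hvv (by linarith) (by linarith)).1).trans ?_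
      have h4 : Real.exp (-(9 / 5 * t)) ≤ 1 := Real.exp_le_one_iff.2 (by linarith)
      have h5 := h100 (L t v' - L t v)
      have h6 : Real.exp (-(9 / 5 * t)) * (2 * (ℓ v' - ℓ v)) ^ 2 ≤ 1 * (2 * (ℓ v' - ℓ v)) ^ 2 := mul_le_mul_of_nonneg_right h4 (sq_nonneg _)
      have h7 : (199 / 100 * (ℓ v' - ℓ v)) ^ 2 ≤ (L t v' - L t v) ^ 2 := pow_le_pow_left₀ (by linarith) h3 2
      nlinarith [sq_nonneg (ℓ v' - ℓ v), sq_nonneg (L t v' - L t v)]
    · obtain ⟨h2, h3⟩ := key v v' hvv h1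
      refine ((hcore t v v' ht0 hvv (by linarith) (by linarith)).2).trans ?_
      have h4 : 20 * d * ((L t v' - L t v) + 2 * (ℓ v' - ℓ v)) ≤ 1 / 500 * ((L t v' - L t v) + 2 * (ℓ v' - ℓ v)) :=
        mul_le_mul_of_nonneg_right (by linarith) (by linarith)
      linarith
  · have ht0 : 0 ≤ t := by linarith
    have he3 := RGF_e3 ht
    have hep := Real.exp_pos (-(9 / 5 * t))
    have key : ∀ v v' : ℝ, v ≤ v' →
        (0 ≤ ℓ v' - ℓ v ∧ 49 / 10 * (ℓ v' - ℓ v) ≤ L t v' - L t v) := by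
      intro v v' hvv
      have h2 := (hgr 0 t v v' le_rfl ht0 hvv).1
      rw [hL0] at h2
      have h3 : 0 ≤ ℓ v' - ℓ v := by
        rw [← hL0]
        exact hLnn 0 le_rfl v v' hvv
      have h4 := RGF_e2 ht
      exact ⟨h3, (mul_le_mul_of_nonneg_right h4 h3).trans h2⟩
    have hcc : CC (1 / 2) (fun v => D.fl E t (γ v)) (X t) (Y t) (Z t) (L t) := by
      refine ⟨hC t, hZpos t ht0, hLd t, fun v => ?_⟩
      refine ((hS v t ht0).2.2 ((1 / 50) ^ 2) le_rfl (hcone0 v)).trans ?_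
      apply mul_le_mul_of_nonneg_right _ (sq_nonneg _)
      have h2 : (10 * d) ^ 2 ≤ (1 / 1000) ^ 2 := pow_le_pow_left₀ (by linarith) (by linarith) 2
      have h3 : (1 - Real.exp (-(9 / 5 * t))) * (10 * d) ^ 2 ≤ 1 * (10 * d) ^ 2 := mul_le_mul_of_nonneg_right (by linarith) (sq_nonneg _)
      nlinarith
    refine ⟨hcc, fun v v' hvv h1 => ?_, fun v v' hvv h1 => ?_⟩
    · obtain ⟨h2, h3⟩ := key v v' hvv
      refine ((hcore t v v' ht0 hvv (by linarith) (by linarith)).1).trans ?_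
      have h5 := h100 (L t v' - L t v)
      have h6 : Real.exp (-(9 / 5 * t)) * (2 * (ℓ v' - ℓ v)) ^ 2 ≤ 1 / 27 * (2 * (ℓ v' - ℓ v)) ^ 2 := mul_le_mul_of_nonneg_right he3 (sq_nonneg _)
      have h7 : (49 / 10 * (ℓ v' - ℓ v)) ^ 2 ≤ (L t v' - L t v) ^ 2 := pow_le_pow_left₀ (by linarith) h3 2
      nlinarith [sq_nonneg (ℓ v' - ℓ v), sq_nonneg (L t v' - L t v)]
    · obtain ⟨h2, h3⟩ := key v v' hvv
      refine ((hcore t v v' ht0 hvv (by linarith) (by linarith)).2).trans ?_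
      have h4 : 20 * d * ((L t v' - L t v) + 2 * (ℓ v' - ℓ v)) ≤ 1 / 500 * ((L t v' - L t v) + 2 * (ℓ v' - ℓ v)) :=
        mul_le_mul_of_nonneg_right (by linarith) (by linarith)
      linarith

end

end Pool.Agent.VQ
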