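import Pool.Agent.helper93.VQ.Spec4c
import Pool.Agent.helper62.RS.All

/-!
# Row vq:RMS (MP_07c750_an): measurability
-/

set_option autoImplicit false

open scoped MatrixGroups ContDiff Topology UpperHalfPlane ComplexConjugate ENNReal
open UpperHalfPlane MeasureTheory Filter Set

namespace Pool.Agent.VQ

open Pool.Agent.RS
open Pool.Agent.RPQ (mean)
open Pool.Agent.VQE (nm)

noncomputable section

theorem RMS_Phi {Γ : Subgroup SL(2, ℝ)} {δ : ℝ} {B : ℕ → ℝ} {D : Dyn} (hD : OKD Γ δ B D) (t : ℝ) :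
    Measurable (fun q : (SL(2, ℝ) × ℝ) × (ℝ × ℝ × ℝ × ℝ) => Phi D t q.1 q.2) := by
  obtain ⟨_, h2, _, ha, hn, hl, _⟩ := A_GLC
  have hSC : SecondCountableTopology SL(2, ℝ) := h2
  have hm1 : Measurable (fun q : (SL(2, ℝ) × ℝ) × (ℝ × ℝ × ℝ × ℝ) => D.fl q.1.2 t (q.1.1 * lM q.2.1)) := by
    have hS : MeasurableSet {q : (SL(2, ℝ) × ℝ) × (ℝ × ℝ × ℝ × ℝ) | |q.1.2| ≤ 1 / 8} := by
      apply IsClosed.measurableSet
      exact isClosed_le (by fun_prop) continuous_const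
    have hc0 : Continuous (fun q : (SL(2, ℝ) × ℝ) × (ℝ × ℝ × ℝ × ℝ) => q.1.1 * lM q.2.1) :=
      (continuous_fst.comp continuous_fst).mul (hl.comp (continuous_fst.comp continuous_snd))
    refine measurable_of_restrict_of_restrict_compl hS ?_ ?_
    · have hc : ContinuousOn (fun q : (SL(2, ℝ) × ℝ) × (ℝ × ℝ × ℝ × ℝ) => D.fl q.1.2 t (q.1.1 * lM q.2.1))
          {q : (SL(2, ℝ) × ℝ) × (ℝ × ℝ × ℝ × ℝ) | |q.1.2| ≤ 1 / 8} := by
        have h3 := hD.cfl.comp (f := fun q : (SL(2, ℝ) × ℝ) × (ℝ × ℝ × ℝ × ℝ) => ((q.1.2, t, q.1.1 * lM q.2.1) : ℝ × ℝ × SL(2, ℝ)))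
          (s := {q | |q.1.2| ≤ 1 / 8}) (Continuous.continuousOn ((continuous_snd.comp continuous_fst).prodMk (continuous_const.prodMk hc0)))
          (fun q hq => hq)
        exact h3
      exact (continuousOn_iff_continuous_domRestrict.1 hc).measurable
    · have h3 : ({q : (SL(2, ℝ) × ℝ) × (ℝ × ℝ × ℝ × ℝ) | |q.1.2| ≤ 1 / 8}ᶜ).domRestrict (fun q => D.fl q.1.2 t (q.1.1 * lM q.2.1)) =
          ({q : (SL(2, ℝ) × ℝ) × (ℝ × ℝ × ℝ × ℝ) | |q.1.2| ≤ 1 / 8}ᶜ).domRestrict (fun q => q.1.1 * lM q.2.1) := by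
        funext q
        have h4 : 1 / 8 < |q.1.1.2| := not_le.1 q.2
        exact (hD.out q.1.1.2 t (q.1.1.1 * lM q.1.2.1) h4).1
      rw [h3]
      exact (hc0.comp continuous_subtype_val).measurable
  have hm2 : Measurable (fun q : (SL(2, ℝ) × ℝ) × (ℝ × ℝ × ℝ × ℝ) => nM q.2.2.1) :=
    (hn.comp (continuous_fst.comp (continuous_snd.comp continuous_snd))).measurable
  have hm3 : Measurable (fun q : (SL(2, ℝ) × ℝ) × (ℝ × ℝ × ℝ × ℝ) => aM q.2.2.2.1) :=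
    (ha.comp (continuous_fst.comp (continuous_snd.comp (continuous_snd.comp continuous_snd)))).measurable
  have hm4 : Measurable (fun q : (SL(2, ℝ) × ℝ) × (ℝ × ℝ × ℝ × ℝ) => q.1.2 + q.2.2.2.2) := by fun_prop
  exact ((hm1.mul hm2).mul hm3).prodMk hm4

theorem RMS_proof (hMTV : MTV_stmt) : RMS_stmt := by
  intro Γ hΓ
  obtain ⟨δ0, hδ0, hM⟩ := hMTV Γ hΓ
  refine ⟨δ0, hδ0, fun B D hD => ⟨fun t => RMS_Phi hD t, fun A R V hV => ?_, fun F h e t hF hT => ?_⟩⟩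
  · have hSC : SecondCountableTopology SL(2, ℝ) := A_GLC.2.1
    have hP := RMS_Phi hD (A.tu R)
    have h1 : Measurable (fun q : (SL(2, ℝ) × ℝ) × (ℝ × ℝ × ℝ × ℝ) => V (Phi D (A.tu R) q.1 q.2) +
        V (ngM * (Phi D (A.tu R) q.1 q.2).1, (Phi D (A.tu R) q.1 q.2).2)) := by
      refine (hV.comp hP).add (hV.comp ?_)
      exact ((measurable_fst.comp hP).const_mul ngM).prodMk (measurable_snd.comp hP)
    exact h1.lintegral_prod_right'
  · obtain ⟨_, _, h3, _⟩ := hM B D F h 1 t e hD hF hT.inv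
    exact measurableSet_le measurable_const (continuous_abs.measurable.comp (h3.sub_const (mean F h)))

end

end Pool.Agent.VQ
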